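import Pool.Agent.PQP.StmtsN

/-!
# Squad PQP, row L4N
-/

set_option autoImplicit false

open scoped InnerProductSpace Topology ContDiff Manifold
open MeasureTheory Filter Set

noncomputable section

namespace Pool.Agent.PQP.H11

open Pool.Agent.Helper42_Paneitz Pool.Agent.Helper82_Vir Pool.Agent.FLX Pool.Agent.PQP

theorem norm_lw (w : S4) {lam : ℝ} (h0 : 0 ≤ lam) : ‖lam • (w : E5)‖ = lam := by
  rw [norm_smul, S4_norm, mul_one, Real.norm_eq_abs, abs_of_nonneg h0]

/-- the height of the image of a point -/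
theorem inner_mob (moa : MoaStmt) (w x : S4) {lam : ℝ} (h0 : 0 ≤ lam) (h1 : lam < 1) :
    0 < 1 + lam * ⟪(w : E5), (x : E5)⟫_ℝ ∧
    1 - ⟪(w : E5), (mob (lam • (w : E5)) x : E5)⟫_ℝ =
      (1 - lam) * (1 - ⟪(w : E5), (x : E5)⟫_ℝ) / (1 + lam * ⟪(w : E5), (x : E5)⟫_ℝ) := by
  have hn : ‖lam • (w : E5)‖ = lam := norm_lw w h0
  have hb : ‖lam • (w : E5)‖ < 1 := by rw [hn]; exact h1
  obtain ⟨hpos, hmob, -⟩ := moa _ hb
  have hp := hpos x
  have e1 : ⟪lam • (w : E5), (x : E5)⟫_ℝ = lam * ⟪(w : E5), (x : E5)⟫_ℝ := by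
    rw [real_inner_smul_left]
  have hww : ⟪(w : E5), (w : E5)⟫_ℝ = 1 := by rw [real_inner_self_eq_norm_sq, S4_norm]; norm_num
  rw [e1] at hp
  refine ⟨hp, ?_⟩
  rw [hmob x, mobE, e1, inner_smul_right, inner_add_right, inner_smul_right, inner_smul_right,
    inner_smul_right, hww]
  set s := ⟪(w : E5), (x : E5)⟫_ℝ with hs
  set k := sq (lam • (w : E5)) with hk
  have hk0 : 0 ≤ k := Real.sqrt_nonneg _
  have hk2 : k ^ 2 = 1 - lam ^ 2 := by
    have h2 : 0 ≤ 1 - ‖lam • (w : E5)‖ ^ 2 := by rw [hn]; nlinarith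
    rw [hk]
    unfold FLX.sq
    rw [Real.sq_sqrt h2, hn]
  have hk1 : 0 < 1 + k := by linarith
  have e2 : (1 + lam * s / (1 + k)) * (lam * 1) = lam + s * (1 - k) := by
    have : lam * s / (1 + k) * lam = s * (1 - k) := by
      rw [div_mul_eq_mul_div, div_eq_iff hk1.ne']
      linear_combination s * hk2
    linear_combination this
  rw [e2, eq_div_iff hp.ne']
  field_simp
  ring

theorem sq_lw (w : S4) {lam : ℝ} (h0 : 0 ≤ lam) (h1 : lam < 1) :
    0 < sq (lam • (w : E5)) ∧ sq (lam • (w : E5)) ^ 2 = 1 - lam ^ 2 := by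
  have h2 : 0 < 1 - ‖lam • (w : E5)‖ ^ 2 := by rw [norm_lw w h0]; nlinarith
  refine ⟨Real.sqrt_pos.2 h2, ?_⟩
  unfold FLX.sq
  rw [Real.sq_sqrt h2.le, norm_lw w h0]

/-- half of the sphere -/
theorem half_sphere (w : S4) : msig / 2 ≤ ∫ _x in {x : S4 | 0 ≤ ⟪(w : E5), (x : E5)⟫_ℝ}, (1 : ℝ) ∂sig := by
  have hc : Continuous fun x : S4 => ⟪(w : E5), (x : E5)⟫_ℝ :=
    continuous_const.inner continuous_subtype_val
  have hm : MeasurableSet {x : S4 | 0 ≤ ⟪(w : E5), (x : E5)⟫_ℝ} :=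
    measurableSet_le measurable_const hc.measurable
  set R : E5 ≃ₗᵢ[ℝ] E5 := LinearIsometryEquiv.neg ℝ with hR
  have h1 := (measurePreserving_act R).measure_preimage hm.nullMeasurableSet
  have hu : (univ : Set S4) ⊆ {x : S4 | 0 ≤ ⟪(w : E5), (x : E5)⟫_ℝ} ∪
      act R ⁻¹' {x : S4 | 0 ≤ ⟪(w : E5), (x : E5)⟫_ℝ} := by
    intro x _
    by_cases h : 0 ≤ ⟪(w : E5), (x : E5)⟫_ℝ
    · exact Or.inl h
    · refine Or.inr ?_
      show 0 ≤ ⟪(w : E5), (act R x : E5)⟫_ℝ
      have e : (act R x : E5) = -(x : E5) := rfl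
      rw [e, inner_neg_right]
      push Not at h
      linarith
  have h2 : sig (univ : Set S4) ≤ sig {x : S4 | 0 ≤ ⟪(w : E5), (x : E5)⟫_ℝ} +
      sig {x : S4 | 0 ≤ ⟪(w : E5), (x : E5)⟫_ℝ} := by
    refine (measure_mono hu).trans ((measure_union_le _ _).trans ?_)
    rw [h1]
  have hf : sig {x : S4 | 0 ≤ ⟪(w : E5), (x : E5)⟫_ℝ} ≠ ⊤ := measure_ne_top _ _
  have h3 : msig ≤ (sig {x : S4 | 0 ≤ ⟪(w : E5), (x : E5)⟫_ℝ}).toReal +
      (sig {x : S4 | 0 ≤ ⟪(w : E5), (x : E5)⟫_ℝ}).toReal := by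
    rw [← ENNReal.toReal_add hf hf]
    exact ENNReal.toReal_mono (ENNReal.add_ne_top.2 ⟨hf, hf⟩) h2
  rw [setIntegral_const, smul_eq_mul, mul_one]
  have : sig.real {x : S4 | 0 ≤ ⟪(w : E5), (x : E5)⟫_ℝ} =
    (sig {x : S4 | 0 ≤ ⟪(w : E5), (x : E5)⟫_ℝ}).toReal := rfl
  rw [this]
  linarith

/-- `t e^(-ct)` is small -/
theorem exp_small {c t : ℝ} (hc : 0 < c) (ht : 0 < t) : t * Real.exp (-(c * t)) ≤ 2 / (c ^ 2 * t) := by
  have h := Real.quadratic_le_exp_of_nonneg (mul_pos hc ht).le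
  have h2 : (c * t) ^ 2 / 2 ≤ Real.exp (c * t) := by
    have := mul_pos hc ht
    linarith
  have he := Real.exp_pos (c * t)
  rw [Real.exp_neg, ← div_eq_mul_inv, div_le_div_iff₀ he (by positivity)]
  nlinarith

theorem l4n (nlp : NlpStmt) (cov : CovStmt) (pot_ : PotStmt) (grs : GrsStmt) (wtl : WtlStmt)
    (tyt : TytStmt) (moa : MoaStmt) : L4nStmt := by
  intro ψ hψ N ε₁ c _ hc
  obtain ⟨C1, θ, hC1, hθ, hnlp⟩ := nlp
  obtain ⟨c₀, -, hpot⟩ := pot_
  obtain ⟨C2, hC2, hgrs⟩ := grs ψ hψ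
  obtain ⟨-, hWsm, L, hL, hLG, -, hLip⟩ := wtl ψ hψ
  obtain ⟨B, hB, hT1, -, hT3⟩ := tyt ψ hψ
  -- constants
  set D : ℝ := 2 * C2 + 5 * B with hD
  set K0 : ℝ := 32 * Real.exp 1 / msig with hK0
  have hm := msig_pos
  have hK0p : 0 < K0 := by rw [hK0]; positivity
  set C : ℝ := (K0 * Real.exp D) ^ 4 * C1 with hC
  have hCp : 0 < C := by rw [hC]; positivity
  set T : ℝ := 1 + 2 / c ^ 2 + 2 * L / (c ^ 2 * θ) + 4 * L / c ^ 2 with hT
  have hTp : 1 ≤ T := by
    rw [hT]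
    have : 0 ≤ 2 / c ^ 2 + 2 * L / (c ^ 2 * θ) + 4 * L / c ^ 2 := by positivity
    linarith
  refine ⟨C, T, hCp, by linarith, ?_⟩
  intro t f w lam ht hbub
  obtain ⟨hsol, hl0, hl1, hbal, hk, -, hmass⟩ := hbub
  set b : E5 := lam • (w : E5) with hb
  have hnb : ‖b‖ = lam := norm_lw w hl0
  have hb1 : ‖b‖ < 1 := by rw [hnb]; exact hl1
  obtain ⟨hkp, hk2⟩ := sq_lw w hl0 hl1
  rw [← hb] at hkp hk2
  have ht1 : 1 ≤ t := hTp.trans ht
  have ht0 : 0 < t := by linarith
  have hes := exp_small hc ht0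
  -- consequences of `t` large
  have hc2 : 0 < c ^ 2 := by positivity
  have ht2 : 2 / c ^ 2 ≤ t := by
    refine le_trans ?_ ht
    rw [hT]
    have : 0 ≤ 2 * L / (c ^ 2 * θ) + 4 * L / c ^ 2 := by positivity
    linarith
  have ht3 : 2 * L / (c ^ 2 * θ) ≤ t := by
    refine le_trans ?_ ht
    rw [hT]
    have : 0 ≤ 2 / c ^ 2 + 4 * L / c ^ 2 := by positivity
    linarith
  have ht4 : 4 * L / c ^ 2 ≤ t := by
    refine le_trans ?_ ht
    rw [hT]
    have : 0 ≤ 2 / c ^ 2 + 2 * L / (c ^ 2 * θ) := by positivity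
    linarith
  have he1 : Real.exp (-(c * t)) ≤ 1 / t := by
    rw [le_div_iff₀ ht0, mul_comm]
    refine hes.trans ?_
    rw [div_le_iff₀ (by positivity)]
    rw [div_le_iff₀ hc2] at ht2
    nlinarith
  have he2 : L * (t * Real.exp (-(c * t))) ≤ θ := by
    refine (mul_le_mul_of_nonneg_left hes hL.le).trans ?_
    rw [mul_div_assoc', div_le_iff₀ (by positivity)]
    rw [div_le_iff₀ (by positivity)] at ht3
    nlinarith
  have he3 : L * (t * Real.exp (-(c * t))) * 2 ≤ 1 := by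
    have h1 : L * (t * Real.exp (-(c * t))) ≤ L * (2 / (c ^ 2 * t)) :=
      mul_le_mul_of_nonneg_left hes hL.le
    have h2 : L * (2 / (c ^ 2 * t)) ≤ 1 / 2 := by
      rw [mul_div_assoc', div_le_div_iff₀ (by positivity) (by norm_num)]
      rw [div_le_iff₀ hc2] at ht4
      nlinarith
    linarith
  -- NLP
  have hkG : sq b * (t * L) ≤ θ := by
    have : sq b * (t * L) ≤ Real.exp (-(c * t)) * (t * L) :=
      mul_le_mul_of_nonneg_right hk (by positivity)
    refine this.trans (le_trans (le_of_eq ?_) he2)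
    ring
  have hN := hnlp (Wt ψ t) f (t * L) b (hLG t ht0.le) hsol hb1 hbal hkG
  -- the solution in the balanced position
  obtain ⟨hdens, hsolc, -, -⟩ := cov b hb1
  set h : S4 → ℝ := pull b f with hh
  have hfd : Dens f := hsol.1
  have hhd : Dens h := hdens f hfd
  obtain ⟨-, A', hA', hform⟩ := hsolc _ f hsol
  rw [← hh] at hform
  obtain ⟨hpc, -, hplow⟩ := hpot h hhd.1
  have hplow' := hplow hhd
  -- distances
  have hdist : ∀ x : S4, ‖(mob b x : E5) - (w : E5)‖ ^ 2 =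
      2 * (1 - ⟪(w : E5), (mob b x : E5)⟫_ℝ) := by
    intro x
    rw [norm_sub_sq_S4, real_inner_comm]
  -- lower bound
  set a : ℝ := A' * Real.exp (-(t * ψ w)) with ha
  have hap : 0 < a := by rw [ha]; positivity
  have hlow : ∀ x ∈ {x : S4 | 0 ≤ ⟪(w : E5), (x : E5)⟫_ℝ}, a * Real.exp (-1) / 16 ≤ h x := by
    intro x hx
    have hx0 : 0 ≤ ⟪(w : E5), (x : E5)⟫_ℝ := hx
    have h1 := (inner_mob moa w x hl0 hl1).2
    rw [← hb] at h1
    have hs1 := inner_le_one w x
    have h2 : 1 - ⟪(w : E5), (mob b x : E5)⟫_ℝ ≤ sq b ^ 2 := by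
      rw [h1, hk2]
      have hpos : 0 < 1 + lam * ⟪(w : E5), (x : E5)⟫_ℝ := by positivity
      rw [div_le_iff₀ hpos]
      have e1 : (1 - lam) * (1 - ⟪(w : E5), (x : E5)⟫_ℝ) ≤ 1 - lam := by
        nlinarith
      have e2 : 1 - lam ≤ 1 - lam ^ 2 := by nlinarith
      have e3 : (1 - lam ^ 2) ≤ (1 - lam ^ 2) * (1 + lam * ⟪(w : E5), (x : E5)⟫_ℝ) := by
        have : 0 ≤ 1 - lam ^ 2 := by nlinarith
        have h5 : 0 ≤ lam * ⟪(w : E5), (x : E5)⟫_ℝ := mul_nonneg hl0 hx0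
        nlinarith
      linarith
    have h3 : ‖(mob b x : E5) - (w : E5)‖ ≤ 2 * sq b := by
      refine abs_le_of_sq_le_sq' ?_ (by positivity) |>.2
      rw [hdist]
      nlinarith [sq_nonneg (sq b)]
    have h4 : t * |ψ (mob b x) - ψ w| ≤ 1 := by
      have h5 := hLip (mob b x) w
      have h6 : t * |ψ (mob b x) - ψ w| ≤ t * (L * (2 * Real.exp (-(c * t)))) := by
        refine mul_le_mul_of_nonneg_left (h5.trans ?_) ht0.le
        refine mul_le_mul_of_nonneg_left (h3.trans ?_) hL.le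
        linarith
      refine h6.trans (le_trans (le_of_eq ?_) he3)
      ring
    have h5 : -(t * ψ w) - 1 ≤ -(t * ψ (mob b x)) := by
      have h6 := le_abs_self (ψ (mob b x) - ψ w)
      nlinarith
    have h6 : Real.exp (4 * pot h x) ≥ 1 / 16 := by
      have h7 := hplow' x
      have h8 : Real.exp (4 * (-Real.log 2)) ≤ Real.exp (4 * pot h x) :=
        Real.exp_le_exp.2 (by linarith)
      have h9 : Real.exp (4 * (-Real.log 2)) = 1 / 16 := by
        have : 4 * (-Real.log 2) = -(Real.log (2 ^ 4)) := by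
          rw [Real.log_pow]; push_cast; ring
        rw [this, Real.exp_neg, Real.exp_log (by norm_num)]
        norm_num
      rw [← h9]; exact h8
    rw [hform x]
    have h7 : Real.exp (-(t * ψ w)) * Real.exp (-1) ≤ Wt ψ t (mob b x) := by
      unfold Wt
      rw [← Real.exp_add]
      exact Real.exp_le_exp.2 (by linarith)
    have h8 : a * Real.exp (-1) / 16 = A' * (Real.exp (-(t * ψ w)) * Real.exp (-1)) * (1 / 16) := by
      rw [ha]; ring
    rw [h8]
    have h9 : 0 < Wt ψ t (mob b x) := (hWsm t).2 _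
    have h10 : A' * (Real.exp (-(t * ψ w)) * Real.exp (-1)) ≤ A' * Wt ψ t (mob b x) :=
      mul_le_mul_of_nonneg_left h7 hA'.le
    exact mul_le_mul h10 h6 (by norm_num) (by positivity)
  have hmS : MeasurableSet {x : S4 | 0 ≤ ⟪(w : E5), (x : E5)⟫_ℝ} :=
    measurableSet_le measurable_const
      ((continuous_const.inner continuous_subtype_val : Continuous fun x : S4 =>
        ⟪(w : E5), (x : E5)⟫_ℝ).measurable)
  have haK : a ≤ K0 := by
    have h1 : ∫ _x in {x : S4 | 0 ≤ ⟪(w : E5), (x : E5)⟫_ℝ}, (a * Real.exp (-1) / 16) ∂sig ≤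
        ∫ x in {x : S4 | 0 ≤ ⟪(w : E5), (x : E5)⟫_ℝ}, h x ∂sig :=
      setIntegral_mono_on (integrable_const _).integrableOn (integrable_cont hhd.1).integrableOn
        hmS hlow
    have h2 : ∫ x in {x : S4 | 0 ≤ ⟪(w : E5), (x : E5)⟫_ℝ}, h x ∂sig ≤ 1 := by
      exact (setIntegral_le_integral (integrable_cont hhd.1)
        (Eventually.of_forall fun x => (hhd.2.1 x).le)).trans hhd.2.2.le
    have h3 := half_sphere w
    have h4 : ∫ _x in {x : S4 | 0 ≤ ⟪(w : E5), (x : E5)⟫_ℝ}, (a * Real.exp (-1) / 16) ∂sig =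
        (a * Real.exp (-1) / 16) * ∫ _x in {x : S4 | 0 ≤ ⟪(w : E5), (x : E5)⟫_ℝ}, (1 : ℝ) ∂sig := by
      rw [← integral_const_mul]
      simp only [mul_one]
    have h5 : (a * Real.exp (-1) / 16) * (msig / 2) ≤ 1 := by
      refine le_trans ?_ (h1.trans h2)
      rw [h4]
      exact mul_le_mul_of_nonneg_left h3 (by positivity)
    rw [hK0, le_div_iff₀ hm]
    have h6 : Real.exp (-1) * Real.exp 1 = 1 := by rw [← Real.exp_add]; norm_num
    have h7 : a * msig = (a * Real.exp (-1) / 16) * (msig / 2) * (32 * Real.exp 1) := by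
      have : (a * Real.exp (-1) / 16) * (msig / 2) * (32 * Real.exp 1) =
          a * msig * (Real.exp (-1) * Real.exp 1) := by ring
      have h9 : a * msig * (Real.exp (-1) * Real.exp 1) = a * msig * 1 :=
        congrArg (fun z => a * msig * z) h6
      linarith
    have h8 : 0 < 32 * Real.exp 1 := by positivity
    calc a * msig = (a * Real.exp (-1) / 16) * (msig / 2) * (32 * Real.exp 1) := h7
      _ ≤ 1 * (32 * Real.exp 1) := mul_le_mul_of_nonneg_right h5 h8.le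
      _ = _ := one_mul _
  -- gradient at `w`
  have hgr : ‖gd ψ w‖ ≤ C2 / √t := by
    refine hgrs t (Real.exp (-(c * t))) w f ht0 he1 hsol ?_
    linarith
  -- upper bound
  have hst : 0 < √t := Real.sqrt_pos.2 ht0
  have hst1 : 1 ≤ √t := by rw [Real.one_le_sqrt]; exact ht1
  have hst2 : √t * √t = t := Real.mul_self_sqrt ht0.le
  have hup : ∀ x ∈ {x : S4 | 1 - ⟪(w : E5), (mob b x : E5)⟫_ℝ ≤ 1 / t},
      h x ^ 4 ≤ (K0 * Real.exp D) ^ 4 * Real.exp (16 * pot h x) := by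
    intro x hx
    have hx0 : 1 - ⟪(w : E5), (mob b x : E5)⟫_ℝ ≤ 1 / t := hx
    set r : ℝ := ‖(mob b x : E5) - (w : E5)‖ with hr
    have hr0 : 0 ≤ r := norm_nonneg _
    have hr2 : r ^ 2 ≤ 2 / t := by
      rw [hr, hdist]
      have : 2 / t = 2 * (1 / t) := by ring
      rw [this]
      linarith
    have hr2' : r ^ 2 * t ≤ 2 := by
      rw [le_div_iff₀ ht0] at hr2; exact hr2
    have hr1 : r * √t ≤ 2 := by
      refine abs_le_of_sq_le_sq' ?_ (by norm_num) |>.2
      rw [mul_pow, Real.sq_sqrt ht0.le]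
      linarith
    have hr3 : r ≤ 2 := by
      have : r * 1 ≤ r * √t := mul_le_mul_of_nonneg_left hst1 hr0
      linarith
    have h1 := hT1 w (mob b x)
    have h2 : |dd ψ w ((mob b x : E5) - (w : E5))| ≤ r * (C2 / √t) := by
      rw [← inner_gd]
      refine (abs_real_inner_le_norm _ _).trans ?_
      exact mul_le_mul_of_nonneg_left hgr hr0
    have h3 := hT3 w ((mob b x : E5) - (w : E5)) ((mob b x : E5) - (w : E5))
    rw [← hr] at h1 h3
    have h4 : t * |ψ (mob b x) - ψ w| ≤ D := by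
      have h5 : |ψ (mob b x) - ψ w| ≤ r * (C2 / √t) + B * r * r / 2 + B * r ^ 3 := by
        rw [abs_le] at h1 h2 h3 ⊢
        constructor <;> linarith [h1.1, h1.2, h2.1, h2.2, h3.1, h3.2]
      have h6 : t * (r * (C2 / √t)) ≤ 2 * C2 := by
        have : t * (r * (C2 / √t)) = (r * √t) * C2 := by
          calc t * (r * (C2 / √t)) = (√t * √t) * (r * (C2 / √t)) := by rw [hst2]
            _ = (r * √t) * C2 := by field_simp
        rw [this]
        exact mul_le_mul_of_nonneg_right hr1 hC2.le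
      have h7 : t * (B * r * r / 2) ≤ B := by
        have : t * (B * r * r / 2) = B * (r ^ 2 * t) / 2 := by ring
        rw [this]
        nlinarith
      have h8 : t * (B * r ^ 3) ≤ 3 * B + B * 1 := by
        have : t * (B * r ^ 3) = B * (r ^ 2 * t) * r := by ring
        rw [this]
        have h9 : B * (r ^ 2 * t) ≤ B * 2 := mul_le_mul_of_nonneg_left hr2' hB
        have h10 : B * (r ^ 2 * t) * r ≤ B * 2 * 2 :=
          mul_le_mul h9 hr3 hr0 (by positivity)
        linarith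
      have h9 : t * |ψ (mob b x) - ψ w| ≤
          t * (r * (C2 / √t) + B * r * r / 2 + B * r ^ 3) :=
        mul_le_mul_of_nonneg_left h5 ht0.le
      have h10 : t * (r * (C2 / √t) + B * r * r / 2 + B * r ^ 3) =
          t * (r * (C2 / √t)) + t * (B * r * r / 2) + t * (B * r ^ 3) := by ring
      rw [hD]
      linarith
    have h5 : -(t * ψ (mob b x)) ≤ -(t * ψ w) + D := by
      have h6 := neg_abs_le (ψ (mob b x) - ψ w)
      nlinarith
    have h7 : Wt ψ t (mob b x) ≤ Real.exp (-(t * ψ w)) * Real.exp D := by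
      unfold Wt
      rw [← Real.exp_add]
      exact Real.exp_le_exp.2 h5
    have hE := Real.exp_pos (4 * pot h x)
    have h8 : h x ≤ K0 * Real.exp D * Real.exp (4 * pot h x) := by
      rw [hform x]
      refine mul_le_mul_of_nonneg_right ?_ hE.le
      calc A' * Wt ψ t (mob b x) ≤ A' * (Real.exp (-(t * ψ w)) * Real.exp D) :=
            mul_le_mul_of_nonneg_left h7 hA'.le
        _ = a * Real.exp D := by rw [ha]; ring
        _ ≤ K0 * Real.exp D := mul_le_mul_of_nonneg_right haK (Real.exp_pos _).le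
    have h9 : Real.exp (16 * pot h x) = Real.exp (4 * pot h x) ^ 4 := by
      rw [← Real.exp_nat_mul]
      congr 1
      push_cast
      ring
    rw [h9, ← mul_pow]
    exact pow_le_pow_left₀ (hhd.2.1 x).le h8 4
  have hcont : Continuous fun x => Real.exp (16 * pot h x) :=
    Real.continuous_exp.comp (continuous_const.mul hpc)
  have hi1 : Integrable (fun x => h x ^ 4) sig := integrable_cont (hhd.1.fun_pow 4)
  have hi2 : Integrable (fun x => (K0 * Real.exp D) ^ 4 * Real.exp (16 * pot h x)) sig :=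
    (integrable_cont hcont).const_mul _
  -- final estimate
  have hmE : NullMeasurableSet {x : S4 | 1 - ⟪(w : E5), (mob b x : E5)⟫_ℝ ≤ 1 / t} sig := by
    have e : {x : S4 | 1 - ⟪(w : E5), (mob b x : E5)⟫_ℝ ≤ 1 / t} =
        {x : S4 | (1 - lam) * (1 - ⟪(w : E5), (x : E5)⟫_ℝ) / (1 + lam * ⟪(w : E5), (x : E5)⟫_ℝ) ≤
          1 / t} := by
      ext x
      have h1 := (inner_mob moa w x hl0 hl1).2
      rw [← hb] at h1
      simp only [mem_ofPred_eq, h1]
    rw [e]
    have hc1 : Measurable fun x : S4 => ⟪(w : E5), (x : E5)⟫_ℝ :=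
      (continuous_const.inner continuous_subtype_val).measurable
    refine (measurableSet_le ?_ measurable_const).nullMeasurableSet
    exact ((hc1.const_sub 1).const_mul _).div ((hc1.const_mul lam).const_add 1)
  calc ∫ x in {x : S4 | 1 - ⟪(w : E5), (mob b x : E5)⟫_ℝ ≤ 1 / t}, h x ^ 4 ∂sig ≤
        ∫ x in {x : S4 | 1 - ⟪(w : E5), (mob b x : E5)⟫_ℝ ≤ 1 / t},
          (K0 * Real.exp D) ^ 4 * Real.exp (16 * pot h x) ∂sig :=
        setIntegral_mono_on₀ hi1.integrableOn hi2.integrableOn hmE hup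
    _ ≤ ∫ x, (K0 * Real.exp D) ^ 4 * Real.exp (16 * pot h x) ∂sig :=
        setIntegral_le_integral hi2 (Eventually.of_forall fun x => by positivity)
    _ = (K0 * Real.exp D) ^ 4 * ∫ x, Real.exp (16 * pot h x) ∂sig := integral_const_mul _ _
    _ ≤ (K0 * Real.exp D) ^ 4 * C1 := mul_le_mul_of_nonneg_left hN (by positivity)

end Pool.Agent.PQP.H11
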